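import Pool.Agent.H586.AF.C

/-!
# Project AF, task PB: the Gibbs measure of the energy at `θ = 0`
-/

set_option autoImplicit false
set_option linter.unusedVariables false

open MeasureTheory Matrix Finset Filter Topology
open scoped Quaternion

namespace Pool.Agent.H696.AF

open Pool.Agent.H586.AF

/-- the space of quaternions is finite dimensional, so that its unit sphere is compact -/
theorem pb_compact : CompactSpace SU := by
  have : FiniteDimensional ℝ ℍ[ℝ] := inferInstance
  have : ProperSpace ℍ[ℝ] := FiniteDimensional.proper ℝ ℍ[ℝ]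
  infer_instance

theorem pb_second : SecondCountableTopology SU := by
  have : FiniteDimensional ℝ ℍ[ℝ] := inferInstance
  have : ProperSpace ℍ[ℝ] := FiniteDimensional.proper ℝ ℍ[ℝ]
  infer_instance

/-- the abstract statement -/
theorem pb_abs {Ω : Type} [MeasurableSpace Ω] (P : Measure Ω) [IsProbabilityMeasure P]
    (g : Ω → ℝ) (hg : Measurable g) (hi : Integrable (fun ω => Real.exp (g ω)) P) :
    IsProbabilityMeasure (P.withDensity fun ω => ENNReal.ofReal (Real.exp (g ω) /
      ∫ τ, Real.exp (g τ) ∂P)) ∧ (0 < ∫ ω, Real.exp (g ω) ∂P) ∧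
    ∀ F : Ω → ℝ, ∫ ω, F ω ∂(P.withDensity fun ω => ENNReal.ofReal (Real.exp (g ω) /
      ∫ τ, Real.exp (g τ) ∂P)) = (∫ ω, F ω * Real.exp (g ω) ∂P) / ∫ ω, Real.exp (g ω) ∂P := by
  have hZ : 0 < ∫ ω, Real.exp (g ω) ∂P := integral_exp_pos hi
  obtain ⟨Z, hZe⟩ : ∃ Z : ℝ, Z = ∫ ω, Real.exp (g ω) ∂P := ⟨_, rfl⟩
  rw [← hZe] at hZ ⊢
  have hm : Measurable (fun ω => ENNReal.ofReal (Real.exp (g ω) / Z)) :=
    ((Real.measurable_exp.comp hg).div_const Z).ennreal_ofReal
  refine ⟨⟨?_⟩, hZ, fun F => ?_⟩
  · rw [withDensity_apply _ MeasurableSet.univ, Measure.restrict_univ,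
      ← ofReal_integral_eq_lintegral_ofReal (hi.div_const Z)
        (Filter.Eventually.of_forall fun ω => div_nonneg (Real.exp_pos _).le hZ.le),
      integral_div, ← hZe, div_self hZ.ne', ENNReal.ofReal_one]
  · rw [integral_withDensity_eq_integral_toReal_smul hm
      (Filter.Eventually.of_forall fun ω => ENNReal.ofReal_lt_top), ← integral_div]
    refine integral_congr_ae (Filter.Eventually.of_forall fun ω => ?_)
    simp only [smul_eq_mul]
    rw [ENNReal.toReal_ofReal (div_nonneg (Real.exp_pos _).le hZ.le)]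
    ring

theorem tpb (hEB : S_EB) : S_PB := by
  intro μ _ _ L hL β
  have := pb_compact
  have := pb_second
  have hc : Continuous (fun σ : IH L → SU => en L 0 σ) := by
    have h := (hEB L hL).2.1
    have h1 : Continuous (fun σ : IH L → SU => ((0 : ℝ), σ)) := Continuous.prodMk_right 0
    have h2 := Continuous.comp h h1
    have h3 : (Function.uncurry (en L)) ∘ (fun σ : IH L → SU => ((0 : ℝ), σ)) =
        fun σ : IH L → SU => en L 0 σ := by
      funext σ
      rw [Function.comp_apply, Function.uncurry_apply_pair]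
    rw [h3] at h2
    exact h2
  have hc2 : Continuous (fun σ : IH L → SU => -(β * en L 0 σ)) := (hc.const_mul β).neg
  have hc3 : Continuous (fun σ : IH L → SU => Real.exp (-(β * en L 0 σ))) :=
    Real.continuous_exp.comp hc2
  have hi : Integrable (fun σ : IH L → SU => Real.exp (-(β * en L 0 σ)))
      (Measure.pi fun _ => μ) :=
    hc3.integrable_of_hasCompactSupport (HasCompactSupport.of_compactSpace _)
  exact pb_abs (Measure.pi fun _ => μ) (fun σ : IH L → SU => -(β * en L 0 σ)) hc2.measurable hi

end Pool.Agent.H696.AF
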